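import Pool.Agent.Q83.WG.EC
import Pool.Agent.Q83.WG.L

/-!
# Generic real exponents: cells, mean squares, failure probabilities
-/

set_option autoImplicit false
set_option linter.unusedSectionVars false

open MeasureTheory Filter Topology Set
open scoped ENNReal
open Pool.Agent.H469R2.NK (e norm_e e_add conj_e e_zero)

namespace Pool.Agent.U384.WGE

open Pool.Agent.Q83.WG (J mem_J J_card_le U A Bad Err Rep ms_scale_u osc_hyp_exp rpow_inv_le scale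
  vol_affine summ)

variable {ι : Type*} [Fintype ι] [DecidableEq ι]

/-- lower end of the range of the variable, relative size -/
noncomputable def ll (i0 : ι) (C : ℕ) (i : ι) : ℝ :=
  if i = i0 then 1 / 8 else 1 / ((2 : ℝ) ^ (C : ℝ) * 2 * (2 * (Fintype.card ι : ℝ)))

/-- quotient of the ends of the range -/
noncomputable def RR (i0 : ι) (i : ι) : ℝ := if i = i0 then 32 else 3 / 2

/-- the corner of a cell -/
noncomputable def cc (n : ℕ) (k : ι → ℕ) (i : ι) : ℝ := (k i : ℝ) / n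

/-- lower end of the range -/
noncomputable def QQ (i0 : ι) (C n : ℕ) (k : ι → ℕ) (i : ι) : ℝ :=
  (ll i0 C i * 2 ^ n) ^ (cc n k i)⁻¹

/-- the range of the variable -/
noncomputable def II (P : ι → Set ℕ) (i0 : ι) (C n : ℕ) (k : ι → ℕ) (i : ι) : Finset ℕ :=
  J (P i) (QQ i0 C n k i) (RR i0 i * QQ i0 C n k i)

/-- powers with exponents in a cell -/
noncomputable def ph (n : ℕ) (k : ι → ℕ) (i : ι) (x : ℕ) (u : ℝ) : ℝ := (x : ℝ) ^ (cc n k i + u / n)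

lemma card_pos' (i0 : ι) : (1 : ℝ) ≤ Fintype.card ι := by
  exact_mod_cast Fintype.card_pos_iff.mpr ⟨i0⟩

lemma ll_pos (i0 : ι) (C : ℕ) (i : ι) : 0 < ll i0 C i := by
  have := card_pos' i0
  unfold ll
  split_ifs <;> positivity

lemma ll_le (i0 : ι) (C : ℕ) (i : ι) : ll i0 C i ≤ 1 := by
  have := card_pos' i0
  unfold ll
  split_ifs
  · norm_num
  · have h1 : (1 : ℝ) ≤ 2 ^ (C : ℝ) := Real.one_le_rpow (by norm_num) (by positivity)
    rw [div_le_one (by positivity)]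
    nlinarith

lemma RR_ge (i0 i : ι) : 3 / 2 ≤ RR i0 i := by
  unfold RR
  split_ifs <;> norm_num

lemma QQ_pos (i0 : ι) (C n : ℕ) (k : ι → ℕ) (i : ι) : 0 < QQ i0 C n k i := by
  have := ll_pos i0 C i
  unfold QQ
  positivity

lemma ph_meas (n : ℕ) (k : ι → ℕ) (i : ι) (x : ℕ) : Measurable (ph n k i x) := by
  unfold ph
  exact Measurable.pow measurable_const ((measurable_id.div_const _).const_add _)

lemma cc_ge {n : ℕ} (hn : 1 ≤ n) {k : ι → ℕ} {i : ι} (h : n ≤ k i) : 1 ≤ cc n k i := by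
  unfold cc
  rw [le_div_iff₀ (by exact_mod_cast hn)]
  simpa using (by exact_mod_cast h : (n : ℝ) ≤ k i)

lemma cc_le {n C : ℕ} (hn : 1 ≤ n) {k : ι → ℕ} {i : ι} (h : k i ≤ C * n) : cc n k i ≤ C := by
  unfold cc
  rw [div_le_iff₀ (by exact_mod_cast hn)]
  exact_mod_cast h

lemma pow_ge {c y : ℝ} (hc : 1 ≤ c) (hy : 0 < y) (hy1 : y ≤ 1) {X : ℝ} (hX : 1 ≤ X) :
    y * X ^ c⁻¹ ≤ (y * X) ^ c⁻¹ := by
  rw [Real.mul_rpow hy.le (by linarith)]
  refine mul_le_mul_of_nonneg_right ?_ (by positivity)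
  calc y = y ^ (1 : ℝ) := (Real.rpow_one y).symm
    _ ≤ y ^ c⁻¹ := Real.rpow_le_rpow_of_exponent_ge hy hy1 (inv_le_one_of_one_le₀ hc)

/-- mean squares in all cells -/
theorem ms (P : ι → Set ℕ) (hP : ∀ i, Q83.WG.Dense (P i)) (i0 : ι) (C : ℕ) (hC : 1 ≤ C) (i : ι) :
    ∃ K c1 : ℝ, 1 ≤ K ∧ 0 < c1 ∧ ∃ n0 : ℕ, 1 ≤ n0 ∧ ∀ n : ℕ, n0 ≤ n → ∀ k : ι → ℕ, n ≤ k i →
      k i ≤ C * n → (II P i0 C n k i).Nonempty ∧
      c1 * QQ i0 C n k i / n ≤ ((II P i0 C n k i).card : ℝ) ∧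
      (∀ θ : ℝ, ((2 : ℝ) ^ n)⁻¹ ≤ θ → θ ≤ 1 →
          Real.sqrt (A (fun _ => U 0) (II P i0 C n k) (ph n k) i θ) ≤
          (K * n) * (II P i0 C n k i).card * (θ * 2 ^ n) ^ (-((cc n k i)⁻¹ / 2))) ∧
      (∀ θ : ℝ, 1 ≤ θ → Real.sqrt (A (fun _ => U 0) (II P i0 C n k) (ph n k) i θ) ≤
          (K * n) * (II P i0 C n k i).card * ((2 : ℝ) ^ n) ^ (-((cc n k i)⁻¹ / 2))) := by
  have hCr : (1 : ℝ) ≤ C := by exact_mod_cast hC
  have hl := ll_pos i0 C i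
  have hl1 := ll_le i0 C i
  have hlog2 : 0 < Real.log 2 := Real.log_pos (by norm_num)
  obtain ⟨K, c1, hK, hc1, n0, hn0, h⟩ := ms_scale_u (P i) (hP i) (C : ℝ)⁻¹
    (2 * C / (Real.pi * ll i0 C i * Real.log 2)) (ll i0 C i) 1 (RR i0 i) (by positivity)
    (by positivity) hl one_pos (RR_ge i0 i)
  obtain ⟨n1, hn1⟩ : ∃ n1 : ℕ, ∀ n : ℕ, n1 ≤ n → (1 : ℝ) ≤ ll i0 C i ^ 2 * 2 ^ n := by
    have ht : Tendsto (fun n : ℕ => ll i0 C i ^ 2 * (2 : ℝ) ^ n) atTop atTop :=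
      Tendsto.const_mul_atTop (by positivity) (tendsto_pow_atTop_atTop_of_one_lt (by norm_num))
    exact eventually_atTop.mp (ht.eventually_ge_atTop 1)
  refine ⟨K, c1, hK, hc1, max n0 n1, hn0.trans (le_max_left _ _), fun n hn k hk1 hk2 => ?_⟩
  have hnn1 : 1 ≤ n := (hn0.trans (le_max_left _ _)).trans hn
  have hc := cc_ge hnn1 hk1
  have hcC := cc_le hnn1 hk2
  have hX1 : (1 : ℝ) ≤ 2 ^ n := one_le_pow₀ (by norm_num)
  obtain ⟨g1, g2, g3⟩ := h n ((le_max_left _ _).trans hn) (cc n k i)⁻¹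
    (inv_anti₀ (by linarith) hcC) (inv_le_one_of_one_le₀ hc) (QQ i0 C n k i)
    (pow_ge hc hl hl1 hX1)
    (by
      unfold QQ
      have := rpow_inv_le hc hl hX1
      rwa [max_eq_left hl1] at this)
  refine ⟨g1, g2, fun θ hθ1 hθ2 => ?_, fun θ hθ1 => ?_⟩
  · have hθ : 0 < θ := lt_of_lt_of_le (by positivity) hθ1
    exact (g3 (U 0) (ph n k i) (ph_meas n k i) θ hθ (fun x hx y hy hxy =>
      osc_hyp_exp (P i) (cc n k i) C (ll i0 C i) (RR i0 i) θ n hnn1 hc hcC hl (RR_ge i0 i)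
        (hn1 n ((le_max_right _ _).trans hn)) hl1 hθ x y hx hy hxy)).1 hθ1 hθ2
  · have hθ : 0 < θ := by linarith
    exact (g3 (U 0) (ph n k i) (ph_meas n k i) θ hθ (fun x hx y hy hxy =>
      osc_hyp_exp (P i) (cc n k i) C (ll i0 C i) (RR i0 i) θ n hnn1 hc hcC hl (RR_ge i0 i)
        (hn1 n ((le_max_right _ _).trans hn)) hl1 hθ x y hx hy hxy)).2 hθ1

/-- the cells at scale `n` in which the exponents have a sum of inverses at least `2 (1 + η₀)` -/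
noncomputable def Cells (C : ℕ) (η0 : ℝ) (n : ℕ) : Finset (ι → ℕ) :=
  open Classical in
  (Fintype.piFinset fun _ : ι => Finset.Icc n (C * n)).filter
    fun k => 2 * (1 + η0) ≤ ∑ i, (cc n k i)⁻¹

lemma mem_Cells {C : ℕ} {η0 : ℝ} {n : ℕ} {k : ι → ℕ} :
    k ∈ Cells C η0 n ↔ (∀ i, n ≤ k i ∧ k i ≤ C * n) ∧ 2 * (1 + η0) ≤ ∑ i, (cc n k i)⁻¹ := by
  classical
  unfold Cells
  simp [Finset.mem_filter, Fintype.mem_piFinset]

lemma card_Cells (C : ℕ) (η0 : ℝ) {n : ℕ} (hn : 1 ≤ n) :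
    ((Cells (ι := ι) C η0 n).card : ℝ) ≤ ((C + 1 : ℝ) * n) ^ Fintype.card ι := by
  classical
  unfold Cells
  have h1 : (((Fintype.piFinset fun _ : ι => Finset.Icc n (C * n)).filter
      fun k => 2 * (1 + η0) ≤ ∑ i, (cc n k i)⁻¹).card) ≤ (C * n + 1) ^ Fintype.card ι := by
    refine (Finset.card_filter_le _ _).trans ?_
    rw [Fintype.card_piFinset, Finset.prod_const, Finset.card_univ, Nat.card_Icc]
    exact Nat.pow_le_pow_left (by omega) _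
  have h2 : ((C : ℝ) * n + 1) ≤ (C + 1 : ℝ) * n := by
    have : (1 : ℝ) ≤ n := by exact_mod_cast hn
    linarith
  refine (Nat.cast_le.mpr h1).trans ?_
  push_cast
  exact pow_le_pow_left₀ (by positivity) h2 _

/-- the exceptional set at scale `n` -/
def En (P : ι → Set ℕ) (i0 : ι) (C : ℕ) (η0 d γ κ : ℝ) (n : ℕ) : Set (ι → ℝ) :=
  ⋃ k ∈ Cells (ι := ι) C η0 n, {t : ι → ℝ | ∃ u : ι → ℝ, (∀ i, u i ∈ Icc (0 : ℝ) 1) ∧
    u ∈ Bad (ph n k) (II P i0 C n k) ((2 : ℝ) ^ n) d γ (κ * (n : ℝ)⁻¹ ^ 1 / (2 * Real.exp Real.pi)) ∧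
    t = fun i => cc n k i + u i * (1 / (n : ℝ))}

/-- the exceptional sets are small -/
theorem vol_En (P : ι → Set ℕ) (hP : ∀ i, Q83.WG.Dense (P i)) (i0 : ι) (C : ℕ) (hC : 1 ≤ C) (η0 d γ κ : ℝ)
    (hd : 0 < d) (hd1 : d ≤ 1) (hγ : 0 ≤ γ) (hγη : γ < η0) (hκ : 0 < κ) :
    ∃ K : ℝ, ∃ n0 : ℕ, 1 ≤ n0 ∧ ∀ n : ℕ, n0 ≤ n → volume (En P i0 C η0 d γ κ n) ≤
      ENNReal.ofReal (K * (n : ℝ) ^ (1 + Fintype.card ι) * (Real.pi * ((2 : ℝ) ^ n) ^ (-(d / 2)) +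
        η0⁻¹ * ((2 : ℝ) ^ n) ^ (-(η0 * d / 2)) + ((2 : ℝ) ^ n) ^ (-(η0 - γ)))) := by
  have hη0 : 0 < η0 := lt_of_le_of_lt hγ hγη
  have hmm := fun i => ms P hP i0 C hC i
  choose K c1 hK hc1 n0 hn0 hms' using hmm
  set KK : ℝ := ∑ i, K i with hKK
  have hKi : ∀ i, K i ≤ KK := fun i =>
    Finset.single_le_sum (f := K) (fun j _ => by linarith [hK j]) (Finset.mem_univ i)
  have hKK1 : 1 ≤ KK := (hK i0).trans (hKi i0)
  set nn : ℕ := ∑ i, n0 i + 1 with hnn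
  have hnn0 : ∀ n, nn ≤ n → ∀ i, n0 i ≤ n := by
    intro n hn i
    have := Finset.single_le_sum (f := n0) (fun j _ => Nat.zero_le _) (Finset.mem_univ i)
    omega
  set s := Fintype.card ι with hs
  refine ⟨(C + 1 : ℝ) ^ s * (4 * Real.exp Real.pi / κ * KK ^ s), nn, by omega, fun n hn => ?_⟩
  have hn1 : 1 ≤ n := by omega
  have hnpos : (0 : ℝ) < n := by exact_mod_cast hn1
  have hn1' : (1 : ℝ) ≤ n := by exact_mod_cast hn1
  have hX1 : (1 : ℝ) ≤ 2 ^ n := one_le_pow₀ (by norm_num)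
  have hX0 : (0 : ℝ) < 2 ^ n := by positivity
  set W : ℝ := Real.pi * ((2 : ℝ) ^ n) ^ (-(d / 2)) +
        η0⁻¹ * ((2 : ℝ) ^ n) ^ (-(η0 * d / 2)) + ((2 : ℝ) ^ n) ^ (-(η0 - γ)) with hW
  have hW0 : 0 ≤ W := by
    have := Real.pi_pos
    positivity
  -- one cell
  have hcell : ∀ k ∈ Cells (ι := ι) C η0 n, (Measure.pi fun _ : ι => U 0)
      (Bad (ph n k) (II P i0 C n k) ((2 : ℝ) ^ n) d γ (κ * (n : ℝ)⁻¹ ^ 1 / (2 * Real.exp Real.pi))) ≤
      ENNReal.ofReal (4 * Real.exp Real.pi / κ * KK ^ s * (n : ℝ) ^ (1 + s) * W) := by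
    intro k hk
    obtain ⟨hk1, hk2⟩ := mem_Cells.mp hk
    set η : ℝ := (∑ i, (cc n k i)⁻¹) / 2 - 1 with hη
    have hηη : η0 ≤ η := by rw [hη]; linarith
    have hη' : 0 < η := by linarith
    have hsc := scale (fun _ : ι => U 0) (II P i0 C n k) (ph n k) (fun i x => ph_meas n k i x)
      ((2 : ℝ) ^ n) d γ (KK * n) η (κ * (n : ℝ)⁻¹ ^ 1 / (2 * Real.exp Real.pi))
      (fun i => (cc n k i)⁻¹) hX1 hd hd1 hγ (by nlinarith) hη' (by positivity)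
      (by rw [hη]; ring) (fun i => (hms' i n (hnn0 n hn i) k (hk1 i).1 (hk1 i).2).1)
      (by
        intro i θ hθ1 hθ2
        have h1 : ((2 : ℝ) ^ n)⁻¹ ≤ θ := by
          refine le_trans ?_ hθ1
          rw [← Real.rpow_neg_one]
          exact Real.rpow_le_rpow_of_exponent_le hX1 (by linarith)
        refine ((hms' i n (hnn0 n hn i) k (hk1 i).1 (hk1 i).2).2.2.1 θ h1 hθ2).trans ?_
        have hθ0 : 0 < θ := lt_of_lt_of_le (by positivity) h1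
        have : 0 ≤ (θ * 2 ^ n) ^ (-((cc n k i)⁻¹ / 2)) := by positivity
        have h2 := hKi i
        gcongr)
      (by
        intro i θ hθ1
        refine ((hms' i n (hnn0 n hn i) k (hk1 i).1 (hk1 i).2).2.2.2 θ hθ1).trans ?_
        have : 0 ≤ ((2 : ℝ) ^ n) ^ (-((cc n k i)⁻¹ / 2)) := by positivity
        have h2 := hKi i
        gcongr)
    refine hsc.trans (ENNReal.ofReal_le_ofReal ?_)
    rw [← hs, mul_pow]
    have e1 : 2 / (κ * (n : ℝ)⁻¹ ^ 1 / (2 * Real.exp Real.pi)) = 4 * Real.exp Real.pi / κ * n := by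
      have := (Real.exp_pos Real.pi).ne'
      rw [pow_one]
      field_simp
      ring
    rw [e1]
    have hWle : Real.pi * ((2 : ℝ) ^ n) ^ (-(d / 2)) + η⁻¹ * ((2 : ℝ) ^ n) ^ (-(η * d / 2)) +
        ((2 : ℝ) ^ n) ^ (-(η - γ)) ≤ W := by
      rw [hW]
      have a1 : η⁻¹ ≤ η0⁻¹ := inv_anti₀ hη0 hηη
      have a2 : ((2 : ℝ) ^ n) ^ (-(η * d / 2)) ≤ ((2 : ℝ) ^ n) ^ (-(η0 * d / 2)) :=
        Real.rpow_le_rpow_of_exponent_le hX1 (by nlinarith)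
      have a3 : ((2 : ℝ) ^ n) ^ (-(η - γ)) ≤ ((2 : ℝ) ^ n) ^ (-(η0 - γ)) :=
        Real.rpow_le_rpow_of_exponent_le hX1 (by linarith)
      have a4 : η⁻¹ * ((2 : ℝ) ^ n) ^ (-(η * d / 2)) ≤ η0⁻¹ * ((2 : ℝ) ^ n) ^ (-(η0 * d / 2)) :=
        mul_le_mul a1 a2 (by positivity) (by positivity)
      linarith
    calc 4 * Real.exp Real.pi / κ * n * (KK ^ s * (n : ℝ) ^ s) *
          (Real.pi * ((2 : ℝ) ^ n) ^ (-(d / 2)) + η⁻¹ * ((2 : ℝ) ^ n) ^ (-(η * d / 2)) +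
            ((2 : ℝ) ^ n) ^ (-(η - γ)))
        ≤ 4 * Real.exp Real.pi / κ * n * (KK ^ s * (n : ℝ) ^ s) * W :=
          mul_le_mul_of_nonneg_left hWle (by positivity)
      _ = 4 * Real.exp Real.pi / κ * KK ^ s * (n : ℝ) ^ (1 + s) * W := by
          rw [pow_add, pow_one]; ring
  have hsum : volume (En P i0 C η0 d γ κ n) ≤ ∑ _k ∈ Cells (ι := ι) C η0 n,
      (ENNReal.ofReal ((1 / (n : ℝ)) ^ s) *
        ENNReal.ofReal (4 * Real.exp Real.pi / κ * KK ^ s * (n : ℝ) ^ (1 + s) * W)) := by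
    unfold En
    refine (measure_biUnion_finset_le _ _).trans (Finset.sum_le_sum fun k hk => ?_)
    refine (vol_affine (cc n k) (1 / (n : ℝ)) (by positivity) _).trans ?_
    exact mul_le_mul_right (hcell k hk) _
  refine hsum.trans ?_
  rw [Finset.sum_const, nsmul_eq_mul, ← ENNReal.ofReal_mul (by positivity), ← ENNReal.ofReal_natCast,
    ← ENNReal.ofReal_mul (by positivity)]
  refine ENNReal.ofReal_le_ofReal ?_
  have hcard := card_Cells (ι := ι) C η0 hn1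
  have hY : 0 ≤ (1 / (n : ℝ)) ^ s * (4 * Real.exp Real.pi / κ * KK ^ s * (n : ℝ) ^ (1 + s) * W) := by
    positivity
  refine (mul_le_mul_of_nonneg_right hcard hY).trans (le_of_eq ?_)
  rw [← hs, mul_pow, div_pow, one_pow]
  field_simp

end Pool.Agent.U384.WGE
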