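import Pool.Agent.U384.WGE.A

/-!
# Generic real exponents: main theorem
-/

set_option autoImplicit false
set_option linter.unusedSectionVars false

open MeasureTheory Filter Topology Set
open scoped ENNReal

namespace Pool.Agent.U384.WGE

open Pool.Agent.Q83.WG (J mem_J J_card_le U A Bad Err Rep rpow_inv_le summ pivot_exp other_exp
  good_one tail_small wrap)

variable {ι : Type*} [Fintype ι] [DecidableEq ι]

/-- almost every exponent vector is good from some scale on -/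
theorem ae_good (P : ι → Set ℕ) (hP : ∀ i, Q83.WG.Dense (P i)) (i0 : ι) (C : ℕ) (hC : 1 ≤ C)
    (η0 d γ κ : ℝ) (hd : 0 < d) (hd1 : d ≤ 1) (hγ : 0 ≤ γ) (hγη : γ < η0) (hκ : 0 < κ) :
    ∀ᵐ t : ι → ℝ, ∀ᶠ n : ℕ in atTop, t ∉ En P i0 C η0 d γ κ n := by
  have hη0 : 0 < η0 := lt_of_le_of_lt hγ hγη
  obtain ⟨K, n0, hn0, hbound⟩ := vol_En P hP i0 C hC η0 d γ κ hd hd1 hγ hγη hκ
  have hsum := summ (1 + Fintype.card ι) K (d / 2) (η0 * d / 2) (η0 - γ) (by positivity)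
    (by positivity) (by linarith) Real.pi η0⁻¹
  have hBC := measure_limsup_atTop_eq_zero (μ := (volume : Measure (ι → ℝ)))
    (s := fun n => if n0 ≤ n then En P i0 C η0 d γ κ n else ∅) (by
    refine ne_top_of_le_ne_top (Summable.tsum_ofReal_ne_top hsum) ?_
    refine ENNReal.tsum_le_tsum fun n => ?_
    by_cases hn : n0 ≤ n
    · simp only [hn, if_true]; exact hbound n hn
    · simp [hn])
  have h7 : ∀ᵐ t : ι → ℝ, ∀ᶠ n : ℕ in atTop, t ∉ (if n0 ≤ n then En P i0 C η0 d γ κ n else ∅) := by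
    rw [ae_iff]
    refine measure_mono_null ?_ hBC
    intro t ht
    simp only [mem_ofPred_eq, not_eventually, not_not] at ht
    rw [mem_limsup_iff_frequently_mem]
    exact ht
  filter_upwards [h7] with t ht
  filter_upwards [ht, eventually_ge_atTop n0] with n hn hn2
  simpa [hn2] using hn

/-- a good exponent vector has representations at all large scales -/
theorem rep_scale (P : ι → Set ℕ) (hP : ∀ i, Q83.WG.Dense (P i)) (i0 : ι) (C : ℕ) (hC : 1 ≤ C) :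
    ∃ d κ : ℝ, 0 < d ∧ d ≤ 1 ∧ 0 < κ ∧ ∀ (η0 γ : ℝ), 0 ≤ γ → ∀ t : ι → ℝ,
      (∀ i, 1 ≤ t i) → (∀ i, t i < C) → 2 * (1 + η0) ≤ ∑ i, (t i)⁻¹ →
      (∀ᶠ n : ℕ in atTop, t ∉ En P i0 C η0 d γ κ n) →
      ∃ c : ℝ, 0 < c ∧ ∃ b : ℕ, ∀ᶠ n : ℕ in atTop, ∀ N : ℝ, (2 : ℝ) ^ n ≤ N → N ≤ 2 * (2 : ℝ) ^ n →
        Rep (fun x : ι → ℕ => ∑ i, (x i : ℝ) ^ t i) (fun x => ∀ i, x i ∈ P i ∧ 0 < x i) N
          (n * ((2 : ℝ) ^ n) ^ (-γ)) (c * (n : ℝ)⁻¹ ^ b * ((2 : ℝ) ^ n) ^ ((∑ i, (t i)⁻¹) - 1 - γ)) := by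
  have hCr : (1 : ℝ) ≤ C := by exact_mod_cast hC
  obtain ⟨d0, hd0, hpiv⟩ := pivot_exp (P i0) (hP i0) (C : ℝ) hCr
  obtain ⟨d, hd, hdd, hd1⟩ : ∃ d : ℝ, 0 < d ∧ d < d0 ∧ d ≤ 1 :=
    ⟨min (d0 / 2) 1, by positivity, by
      have := min_le_left (d0 / 2) 1
      linarith, min_le_right _ _⟩
  obtain ⟨cw, hcw, nw, hnw, hwin⟩ := hpiv d hd hdd
  refine ⟨d, cw, hd, hd1, hcw, ?_⟩
  intro η0 γ hγ t ht1 htC hsum hgood
  have hmm := fun i => ms P hP i0 C hC i
  choose K c1 hK hc1 n0 hn0 hms' using hmm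
  set s := Fintype.card ι with hs
  have hs1 : (1 : ℝ) ≤ (s : ℝ) := card_pos' i0
  set q : ℝ := ∑ i, (t i)⁻¹ with hq
  set nn : ℕ := ∑ i, n0 i + nw with hnn
  have hnn0 : ∀ n, nn ≤ n → ∀ i, n0 i ≤ n := by
    intro n hn i
    have := Finset.single_le_sum (f := n0) (fun j _ => Nat.zero_le _) (Finset.mem_univ i)
    omega
  have hcc : 0 < cw / (4 * Real.exp Real.pi) := by positivity
  have hlX : ∀ᶠ n : ℕ in atTop, (1 : ℝ) ≤ 1 / ((2 : ℝ) ^ (C : ℝ) * 2 * (2 * s)) * 2 ^ n := by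
    have ht : Tendsto (fun n : ℕ => 1 / ((2 : ℝ) ^ (C : ℝ) * 2 * (2 * s)) * (2 : ℝ) ^ n) atTop atTop :=
      Tendsto.const_mul_atTop (by positivity) (tendsto_pow_atTop_atTop_of_one_lt (by norm_num))
    exact ht.eventually_ge_atTop 1
  refine ⟨cw / (4 * Real.exp Real.pi) * ∏ i, (c1 i * ll i0 C i), ?_, 1 + s, ?_⟩
  · have h1 : 0 < ∏ i, (c1 i * ll i0 C i) := Finset.prod_pos fun i _ =>
      mul_pos (hc1 i) (ll_pos i0 C i)
    positivity
  filter_upwards [hgood, eventually_ge_atTop nn, hlX, tail_small 1 _ (1 + γ) hcc] with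
    n hnE hn hlXn htail N hN1 hN2
  have hn1 : 1 ≤ n := by omega
  have hnpos : (0 : ℝ) < n := by exact_mod_cast hn1
  have hX1 : (1 : ℝ) ≤ 2 ^ n := one_le_pow₀ (by norm_num)
  have hX0 : (0 : ℝ) < 2 ^ n := by positivity
  -- the cell of `t`
  set k : ι → ℕ := fun i => ⌊t i * n⌋₊ with hk
  have hk1 : ∀ i, (k i : ℝ) ≤ t i * n := fun i => Nat.floor_le (by have := ht1 i; positivity)
  have hk2 : ∀ i, t i * n < k i + 1 := fun i => Nat.lt_floor_add_one _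
  have hkn : ∀ i, n ≤ k i := by
    intro i
    apply Nat.le_floor
    have := ht1 i
    nlinarith
  have hkC : ∀ i, k i ≤ C * n := by
    intro i
    have h1 : (k i : ℝ) < C * n := lt_of_le_of_lt (hk1 i) (by have := htC i; gcongr)
    have h2 : k i < C * n := by exact_mod_cast h1
    omega
  have hct : ∀ i, cc n k i ≤ t i := by
    intro i
    unfold cc
    rw [div_le_iff₀ hnpos]
    exact hk1 i
  have htc : ∀ i, t i ≤ cc n k i + 1 / n := by
    intro i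
    unfold cc
    rw [← add_div, le_div_iff₀ hnpos]
    exact (hk2 i).le
  have hc1' : ∀ i, 1 ≤ cc n k i := fun i => cc_ge hn1 (hkn i)
  have hsum2 : q ≤ ∑ i, (cc n k i)⁻¹ :=
    Finset.sum_le_sum fun i _ => inv_anti₀ (by have := hc1' i; linarith) (hct i)
  have hkcell : k ∈ Cells (ι := ι) C η0 n :=
    mem_Cells.mpr ⟨fun i => ⟨hkn i, hkC i⟩, hsum.trans hsum2⟩
  set u : ι → ℝ := fun i => (t i - cc n k i) * n with hu
  have hu01 : ∀ i, u i ∈ Icc (0 : ℝ) 1 := by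
    intro i
    have h1 := hct i
    have h2 := htc i
    refine ⟨mul_nonneg (by linarith) hnpos.le, ?_⟩
    have : (t i - cc n k i) * n ≤ 1 / n * n := by gcongr; linarith
    rwa [one_div, inv_mul_cancel₀ hnpos.ne'] at this
  have hbad : u ∉ Bad (ph n k) (II P i0 C n k) ((2 : ℝ) ^ n) d γ
      (cw * (n : ℝ)⁻¹ ^ 1 / (2 * Real.exp Real.pi)) := by
    intro hub
    apply hnE
    unfold En
    rw [mem_iUnion₂]
    refine ⟨k, hkcell, u, hu01, hub, ?_⟩
    funext i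
    simp only [hu]
    field_simp
    ring
  have hph : ∀ i (x : ℕ), ph n k i x (u i) = (x : ℝ) ^ t i := by
    intro i x
    unfold ph
    congr 1
    simp only [hu]
    field_simp
    ring
  have hone := good_one (ph n k) (II P i0 C n k) n d γ cw 1 i0 hd1 hγ hcw u hn1 htail
    (hms' i0 n (hnn0 n hn i0) k (hkn i0) (hkC i0)).1 ?_ ?_ hbad N hN1 hN2
  · simp only [hph] at hone
    refine hone.mono ?_ le_rfl ?_
    · intro x hx i
      have h0 := QQ_pos i0 C n k i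
      have h1 := (mem_J h0.le (by have := RR_ge i0 i; positivity)).mp (hx i)
      refine ⟨h1.2.2, ?_⟩
      have : (0 : ℝ) < x i := h0.trans h1.1
      exact_mod_cast this
    · have hprod : (∏ i, (c1 i * ll i0 C i)) * (n : ℝ)⁻¹ ^ s * ((2 : ℝ) ^ n) ^ q ≤
          ∏ i, ((II P i0 C n k i).card : ℝ) := by
        calc (∏ i, (c1 i * ll i0 C i)) * (n : ℝ)⁻¹ ^ s * ((2 : ℝ) ^ n) ^ q
            = ∏ i, (c1 i * (ll i0 C i * ((2 : ℝ) ^ n) ^ (t i)⁻¹) / n) := by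
              rw [hq, Real.rpow_sum_of_pos hX0, hs, ← Finset.card_univ, ← Finset.prod_const,
                ← Finset.prod_mul_distrib, ← Finset.prod_mul_distrib]
              refine Finset.prod_congr rfl fun i _ => ?_
              ring
          _ ≤ ∏ i, ((II P i0 C n k i).card : ℝ) := by
              refine Finset.prod_le_prod (fun i _ => by
                have := hc1 i; have := ll_pos i0 C i; positivity) fun i _ => ?_
              refine le_trans ?_ (hms' i n (hnn0 n hn i) k (hkn i) (hkC i)).2.1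
              have hci := hc1 i
              have h1 : ll i0 C i * ((2 : ℝ) ^ n) ^ (t i)⁻¹ ≤ QQ i0 C n k i := by
                refine le_trans ?_ (pow_ge (hc1' i) (ll_pos i0 C i) (ll_le i0 C i) hX1)
                refine mul_le_mul_of_nonneg_left ?_ (ll_pos i0 C i).le
                exact Real.rpow_le_rpow_of_exponent_le hX1
                  (inv_anti₀ (by have := hc1' i; linarith) (hct i))
              gcongr
      have e1 : ((2 : ℝ) ^ n) ^ (q - 1 - γ) = ((2 : ℝ) ^ n) ^ (-(1 + γ)) * ((2 : ℝ) ^ n) ^ q := by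
        rw [← Real.rpow_add hX0]; congr 1; ring
      rw [e1, pow_add, pow_one]
      calc cw / (4 * Real.exp Real.pi) * (∏ i, (c1 i * ll i0 C i)) *
            ((n : ℝ)⁻¹ * (n : ℝ)⁻¹ ^ s) *
            (((2 : ℝ) ^ n) ^ (-(1 + γ)) * ((2 : ℝ) ^ n) ^ q)
          = cw / (4 * Real.exp Real.pi) * (n : ℝ)⁻¹ * ((2 : ℝ) ^ n) ^ (-(1 + γ)) *
            ((∏ i, (c1 i * ll i0 C i)) * (n : ℝ)⁻¹ ^ s * ((2 : ℝ) ^ n) ^ q) := by ring
        _ ≤ _ := by gcongr
  · -- pivot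
    intro y hy1 hy2
    have h1 := hwin n (by omega) (cc n k i0) (t i0) (hc1' i0) (hct i0) (htc i0) (htC i0).le y hy1 hy2
    have hII : II P i0 C n k i0 = J (P i0) ((1 / 8 * 2 ^ n) ^ (cc n k i0)⁻¹)
        (32 * (1 / 8 * 2 ^ n) ^ (cc n k i0)⁻¹) := by
      unfold II QQ ll RR
      simp
    rw [← hII] at h1
    simp only [hph]
    rw [pow_one]
    exact h1
  · -- the other variables
    intro i hi x hx
    have hII : II P i0 C n k i = J (P i) ((1 / ((2 : ℝ) ^ (C : ℝ) * 2 * (2 * s)) * 2 ^ n) ^ (cc n k i)⁻¹)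
        (3 / 2 * (1 / ((2 : ℝ) ^ (C : ℝ) * 2 * (2 * s)) * 2 ^ n) ^ (cc n k i)⁻¹) := by
      unfold II QQ ll RR
      simp only [hi, if_false]
      rfl
    rw [hII] at hx
    rw [hph]
    exact other_exp (P i) (cc n k i) (t i) C s hs1 hCr n hn1 (hc1' i) (hct i) (htc i) (htC i).le
      hlXn x hx

/-- **Generic real exponents.** -/
theorem exp_main (P : ι → Set ℕ) (hP : ∀ i, Q83.WG.Dense (P i)) :
    ∀ᵐ t : ι → ℝ, (∀ i, 1 ≤ t i) → 2 < ∑ i, (t i)⁻¹ →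
      ∀ γ : ℝ, 0 ≤ γ → γ < (∑ i, (t i)⁻¹) / 2 - 1 → ∀ ε : ℝ, 0 < ε → ∀ᶠ N : ℝ in atTop,
        Rep (fun x : ι → ℕ => ∑ i, (x i : ℝ) ^ t i) (fun x => ∀ i, x i ∈ P i ∧ 0 < x i) N
          (N ^ (-γ)) (N ^ ((∑ i, (t i)⁻¹) - 1 - γ - ε)) := by
  classical
  rcases isEmpty_or_nonempty ι with hι | ⟨⟨i0⟩⟩
  · refine ae_of_all _ fun t _ h => ?_
    rw [Finset.univ_eq_empty, Finset.sum_empty] at h
    norm_num at h
  have key := fun C : ℕ => fun hC : 1 ≤ C => rep_scale P hP i0 C hC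
  choose! d κ hd hd1 hκ hrep using key
  have hall : ∀ᵐ t : ι → ℝ, ∀ C : ℕ, 1 ≤ C → ∀ γ η0 : ℚ, (0 : ℝ) ≤ γ → (γ : ℝ) < η0 →
      ∀ᶠ n : ℕ in atTop, t ∉ En P i0 C η0 (d C) γ (κ C) n := by
    rw [ae_all_iff]; intro C
    by_cases hC : 1 ≤ C
    · have : ∀ γ η0 : ℚ, ∀ᵐ t : ι → ℝ, (0 : ℝ) ≤ γ → (γ : ℝ) < η0 →
          ∀ᶠ n : ℕ in atTop, t ∉ En P i0 C η0 (d C) γ (κ C) n := by
        intro γ η0
        by_cases h1 : (0 : ℝ) ≤ γ
        · by_cases h2 : (γ : ℝ) < η0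
          · filter_upwards [ae_good P hP i0 C hC η0 (d C) γ (κ C) (hd C hC) (hd1 C hC) h1 h2 (hκ C hC)]
              with t ht _ _ using ht
          · exact ae_of_all _ fun t _ h => absurd h h2
        · exact ae_of_all _ fun t h => absurd h h1
      simp only [← ae_all_iff] at this
      filter_upwards [this] with t ht _ γ η0 h1 h2 using ht γ η0 h1 h2
    · exact ae_of_all _ fun t h => absurd h hC
  filter_upwards [hall] with t ht ht1 hsum γ hγ hγη ε hε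
  obtain ⟨C, hC⟩ : ∃ C : ℕ, 1 ≤ C ∧ ∀ i, t i < C := by
    obtain ⟨C, hC⟩ := exists_nat_gt (∑ i, t i)
    refine ⟨C + 1, by omega, fun i => ?_⟩
    have h1 : t i ≤ ∑ j, t j :=
      Finset.single_le_sum (f := t) (fun j _ => by linarith [ht1 j]) (Finset.mem_univ i)
    push_cast
    linarith
  refine wrap _ _ (∑ i, (t i)⁻¹) ((∑ i, (t i)⁻¹) / 2 - 1) (fun γ' hγ' hγη' => ?_) γ hγ hγη ε hε
  obtain ⟨η0, h1, h2⟩ := exists_rat_btwn hγη'
  have hγ'' : (0 : ℝ) ≤ γ' := by exact_mod_cast hγ'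
  exact hrep C hC.1 η0 γ' hγ'' t ht1 hC.2 (by linarith) (ht C hC.1 γ' η0 hγ'' h1)

end Pool.Agent.U384.WGE
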