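import Pool.Agent.U384.WGE.B
import Pool.Agent.U384.WGM.A

/-!
# Generic real exponents: integer parts
-/

set_option autoImplicit false

open MeasureTheory Filter Topology Set

namespace Pool.Agent.U384.WGE

/-- the integer part -/
theorem floor_exp (s : ℕ) (P : Fin s → Set ℕ) (hP : ∀ i, Q83.WG.Dense (P i)) :
    ∀ᵐ t : Fin s → ℝ, (∀ i, 1 ≤ t i) → 2 < ∑ i, (t i)⁻¹ → ∀ᶠ n : ℕ in atTop,
      ∃ x : Fin s → ℕ, (∀ i, x i ∈ P i) ∧ ⌊∑ i, (x i : ℝ) ^ t i⌋ = (n : ℤ) := by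
  filter_upwards [exp_main P hP] with t ht ht1 hsum
  set q : ℝ := ∑ i, (t i)⁻¹ with hq
  set γ : ℝ := (q / 2 - 1) / 2 with hγ
  have hγ0 : 0 < γ := by rw [hγ]; linarith
  have h1 := ht ht1 hsum γ hγ0.le (by rw [hγ]; linarith) (q / 2 - 1) (by linarith)
  have hlim : Tendsto (fun N : ℝ => N ^ γ) atTop atTop := tendsto_rpow_atTop hγ0
  have h2 := h1.and ((hlim.eventually_ge_atTop 4).and (eventually_ge_atTop (1 : ℝ)))
  have h3 : Tendsto (fun n : ℕ => (n : ℝ) + 1 / 2) atTop atTop :=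
    tendsto_atTop_add_const_right _ _ tendsto_natCast_atTop_atTop
  filter_upwards [h3.eventually h2] with n hn
  obtain ⟨⟨T, hT, hT2⟩, hn4, hn1⟩ := hn
  have hN0 : (0 : ℝ) < (n : ℝ) + 1 / 2 := by positivity
  have hTpos : 0 < (T.card : ℝ) := lt_of_lt_of_le (by positivity) hT
  have hTne : T.Nonempty := by
    rw [← Finset.card_pos]; exact_mod_cast hTpos
  obtain ⟨x, hx⟩ := hTne
  obtain ⟨hx1, hx2⟩ := hT2 x hx
  refine ⟨x, fun i => (hx1 i).1, ?_⟩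
  have hr : ((n : ℝ) + 1 / 2) ^ (-γ) ≤ 1 / 4 := by
    rw [Real.rpow_neg hN0.le, ← one_div]
    exact one_div_le_one_div_of_le (by norm_num) hn4
  rw [Int.floor_eq_iff]
  rw [abs_le] at hx2
  push_cast
  constructor <;> linarith [hx2.1, hx2.2]

end Pool.Agent.U384.WGE
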